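import Mathlib
import Pool.Agent.H55.FX.Stm
import Pool.Agent.H22.FW.Rows3

set_option autoImplicit false

/-! Rows 3 - 7 with the parameter `e2`: polynomial inequalities (helper22). -/

namespace Pool.Agent.H22.FX

open Pool.Agent.W608.PR Pool.Agent.H55.FU Pool.Agent.H55.FV
open Pool.Agent.H55.FW (kG Ir Wm)
open Pool.Agent.H55.FX (Base3x Qz)
open Pool.Agent.H22.FV (ch_q Nn_q dm_q aa3_q sz3_q Sz3_q sz2 sz1 aa2 aa1 half_q k1_q k2_q aa3_ge k3_q c_q c'_q)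
open Pool.Agent.H22.FW (kG_q Wm_eq W_le)

/-- the inequalities over the rationals -/
theorem toQ (E D e2 : ℕ) (_hE : 1 ≤ E) (hD : 7 ≤ D) (he2 : 4 ≤ e2)
    (h3 : (0 : ℚ) ≤ ((E : ℚ) + 1) * (3 * Nn E 4) - 5 * (((E : ℚ) + 3) * kS E 2))
    (h4 : (0 : ℚ) ≤ ((E : ℚ) + 1) * (4 * Nn E 5) - 6 * (((E : ℚ) + 3) * kS E 3))
    (h45 : (0 : ℚ) ≤ ((E : ℚ) + 1) * (((e2 : ℚ) - 1) * Nn E e2) -
      ((e2 : ℚ) + 1) * (((E : ℚ) + 3) * ((kS E 3 + sz E 3) * sz E 3 + kS E 3)))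
    (h5 : (0 : ℚ) ≤ ((E : ℚ) + 1) * (((D : ℚ) - 3) * Nn E (D - 2)) -
      ((D : ℚ) - 1) * (((E : ℚ) + 3) * ((((kS E 3 : ℚ) + sz E 3) * ((E : ℚ) + 3) / 2 +
        (1 + ((kG E 3 2 : ℚ) + (E + 2) + 1)) * sz E 3) + kS E 3 +
        (3 * (Nn E 4 + (cS E 3 + sz E 3)) + cT E 3 + ((D : ℚ) - 1) * (cS E 3 + sz E 3)))))
    (h6 : (0 : ℚ) ≤ ((D : ℚ) - 3) * Nn E (D - 1) - ((E : ℚ) + 4) *
      (((kS E 3 : ℚ) + sz E 3) * ((E : ℚ) + 3) / 2 + (1 + ((kG E 3 2 : ℚ) + (E + 2) + 1)) * sz E 3))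
    (h7 : (0 : ℚ) < dm E D - Sz (E + 1) 3 * (dm E 4 + ((e2 : ℚ) - 3) * (kS E 3 + sz E 3)))
    (h8 : (0 : ℚ) ≤ Nn E D - ((dm E 4 + ((e2 : ℚ) - 3) * (kS E 3 + sz E 3)) * sz E 3 + kS E 3 +
        (3 * (Nn E 4 + (cS E 3 + sz E 3)) + cT E 3 + (D : ℚ) * (cS E 3 + sz E 3)))) :
    Base3x E (kS E 3) (kS E 2) (kS E 1) (cS E 3) (cT E 3) 4 D (Wm E 3) e2 := by
  have hk1 : kS E 1 = 0 := by exact_mod_cast k1_q E
  have e1 : ((D - 1 : ℕ) : ℚ) = (D : ℚ) - 1 := by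
    rw [Nat.cast_sub (by omega)]; norm_num
  have e3 : ((D - 3 : ℕ) : ℚ) = (D : ℚ) - 3 := by
    rw [Nat.cast_sub (by omega)]; norm_num
  have e4 : ((e2 - 1 : ℕ) : ℚ) = (e2 : ℚ) - 1 := by
    rw [Nat.cast_sub (by omega)]; norm_num
  have e5 : ((e2 + 1 - 4 : ℕ) : ℚ) = (e2 : ℚ) - 3 := by
    rw [Nat.cast_sub (by omega)]; push_cast; ring
  have hW := W_le E
  have hE0 : (0 : ℚ) ≤ E := Nat.cast_nonneg _
  have hD7 : (7 : ℚ) ≤ D := by exact_mod_cast hD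
  generalize Wm E 3 = W at hW
  generalize (((kS E 3 : ℚ) + sz E 3) * ((E : ℚ) + 3) / 2 +
    (1 + ((kG E 3 2 : ℚ) + (E + 2) + 1)) * sz E 3) = WS at hW h5 h6
  refine ⟨by norm_num, by omega, he2, ?_, ?_, ?_, ?_, ?_, ?_, ?_, ?_⟩
  · rw [hk1]
    simp
  · have h : ((((4 + 1) * ((E + 3) * kS E 2) : ℕ)) : ℚ) ≤ (((E + 1) * ((4 - 1) * Nn E 4) : ℕ) : ℚ) := by
      push_cast
      linarith
    exact_mod_cast h
  · have h : ((((4 + 2) * ((E + 3) * kS E 3) : ℕ)) : ℚ) ≤ (((E + 1) * (4 * Nn E (4 + 1)) : ℕ) : ℚ) := by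
      push_cast
      linarith
    exact_mod_cast h
  · unfold Rg
    have h : ((((e2 + 1) * ((E + 3) * ((kS E 3 + sz E 3) * sz E 3 + kS E 3)) : ℕ)) : ℚ) ≤
        (((E + 1) * ((e2 - 1) * Nn E e2) : ℕ) : ℚ) := by
      push_cast [e4]
      linarith
    exact_mod_cast h
  · unfold Xg Yg
    have h : ((((D - 1) * ((E + 3) * (W * sz E 3 + kS E 3 +
        (3 * (Nn E 4 + (cS E 3 + sz E 3)) + cT E 3 + (D - 1) * (cS E 3 + sz E 3)))) : ℕ)) : ℚ) ≤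
        (((E + 1) * ((D - 3) * Nn E (D - 2)) : ℕ) : ℚ) := by
      push_cast [e1, e3]
      have h9 := mul_le_mul_of_nonneg_left hW (show (0 : ℚ) ≤ ((D : ℚ) - 1) * ((E : ℚ) + 3) by nlinarith)
      linarith
    exact_mod_cast h
  · have h : ((((E + 4) * (W * sz E 3) : ℕ)) : ℚ) ≤ (((D - 3) * Nn E (D - 1) : ℕ) : ℚ) := by
      push_cast [e3]
      have h9 := mul_le_mul_of_nonneg_left hW (show (0 : ℚ) ≤ (E : ℚ) + 4 by linarith)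
      linarith
    exact_mod_cast h
  · unfold Qz Rg
    have h : (((Sz (E + 1) 3 * (dm E 4 + (e2 + 1 - 4) * (kS E 3 + sz E 3)) : ℕ)) : ℚ) <
        ((dm E D : ℕ) : ℚ) := by
      rw [Nat.cast_mul, Nat.cast_add, Nat.cast_mul, e5, Nat.cast_add]
      linarith
    exact_mod_cast h
  · unfold Qz Rg Xg Yg
    have h : ((((dm E 4 + (e2 + 1 - 4) * (kS E 3 + sz E 3)) * sz E 3 + kS E 3 +
        (3 * (Nn E 4 + (cS E 3 + sz E 3)) + cT E 3 + D * (cS E 3 + sz E 3)) : ℕ)) : ℚ) ≤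
        ((Nn E D : ℕ) : ℚ) := by
      rw [Nat.cast_add, Nat.cast_add, Nat.cast_mul, Nat.cast_add, Nat.cast_mul, e5]
      push_cast
      linarith
    exact_mod_cast h

/-- **row3** -/
theorem row3 : Pool.Agent.H55.FX.S_row3 := by
  intro E hE
  obtain ⟨x, rfl⟩ : ∃ x, E = x + 14 := ⟨E - 14, by omega⟩
  have h1 : 1 ≤ x + 14 := by omega
  refine toQ _ _ _ h1 (by norm_num) (by norm_num) ?_ ?_ ?_ ?_ ?_ ?_ ?_
  all_goals
    simp only [Nn_q, dm_q, k2_q _ h1, k3_q _ h1, c_q _ h1, c'_q _ h1, sz3_q, Sz3_q, kG_q _ h1,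
      Finset.prod_range_succ, Finset.prod_range_zero, Nat.factorial]
    push_cast
    ring_nf
    positivity

/-- **row4** -/
theorem row4 : Pool.Agent.H55.FX.S_row4 := by
  intro E hE
  obtain ⟨x, rfl⟩ : ∃ x, E = x + 16 := ⟨E - 16, by omega⟩
  have h1 : 1 ≤ x + 16 := by omega
  refine toQ _ _ _ h1 (by norm_num) (by norm_num) ?_ ?_ ?_ ?_ ?_ ?_ ?_
  all_goals
    simp only [Nn_q, dm_q, k2_q _ h1, k3_q _ h1, c_q _ h1, c'_q _ h1, sz3_q, Sz3_q, kG_q _ h1,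
      Finset.prod_range_succ, Finset.prod_range_zero, Nat.factorial]
    push_cast
    ring_nf
    positivity

/-- **row5** -/
theorem row5 : Pool.Agent.H55.FX.S_row5 := by
  intro E hE
  obtain ⟨x, rfl⟩ : ∃ x, E = x + 22 := ⟨E - 22, by omega⟩
  have h1 : 1 ≤ x + 22 := by omega
  refine toQ _ _ _ h1 (by norm_num) (by norm_num) ?_ ?_ ?_ ?_ ?_ ?_ ?_
  all_goals
    simp only [Nn_q, dm_q, k2_q _ h1, k3_q _ h1, c_q _ h1, c'_q _ h1, sz3_q, Sz3_q, kG_q _ h1,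
      Finset.prod_range_succ, Finset.prod_range_zero, Nat.factorial]
    push_cast
    ring_nf
    positivity

/-- **row6** -/
theorem row6 : Pool.Agent.H55.FX.S_row6 := by
  intro E hE
  obtain ⟨x, rfl⟩ : ∃ x, E = x + 40 := ⟨E - 40, by omega⟩
  have h1 : 1 ≤ x + 40 := by omega
  refine toQ _ _ _ h1 (by norm_num) (by norm_num) ?_ ?_ ?_ ?_ ?_ ?_ ?_
  all_goals
    simp only [Nn_q, dm_q, k2_q _ h1, k3_q _ h1, c_q _ h1, c'_q _ h1, sz3_q, Sz3_q, kG_q _ h1,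
      Finset.prod_range_succ, Finset.prod_range_zero, Nat.factorial]
    push_cast
    ring_nf
    positivity

/-- **row7** -/
theorem row7 : Pool.Agent.H55.FX.S_row7 := by
  intro E hE
  obtain ⟨x, rfl⟩ : ∃ x, E = x + 310 := ⟨E - 310, by omega⟩
  have h1 : 1 ≤ x + 310 := by omega
  refine toQ _ _ _ h1 (by norm_num) (by norm_num) ?_ ?_ ?_ ?_ ?_ ?_ ?_
  all_goals
    simp only [Nn_q, dm_q, k2_q _ h1, k3_q _ h1, c_q _ h1, c'_q _ h1, sz3_q, Sz3_q, kG_q _ h1,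
      Finset.prod_range_succ, Finset.prod_range_zero, Nat.factorial]
    push_cast
    ring_nf
    positivity

end Pool.Agent.H22.FX
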